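import Pool.Agent.PFJ.Stmts

/-!
# NTS squad (MP_e54c4c_gt), BLOCK E: top simplices all of whose edges are trivial

THEOREM E.  Let `Γ` act convex cocompactly on the domain of the cone `C`, let `K = k + 1 ≥ 3` be the
maximal number of vertices of a properly embedded simplex with vertices in the limit set.  Let `T`
be a closed family of such simplices (with `K` vertices), invariant under `Γ` and under rescaling of
the vertices, such that all EDGES of all members are trivial: `y ≤ M (w_i + w_j)` implies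
`y ∈ span (w_i, w_j)`.  Then every member is a maximal properly embedded simplex and is preserved by
a subgroup of `Γ` isomorphic to `ℤ^k`.

(The landed theorem `Pool.Agent.PFS.H37.orbF` needs that all FACETS are faces of the domain.)

Conventions.  `x ≤ y` means `y - x ∈ closure C`.  `G = s • act g` scaled group element.
All rows of the squads PFS and PFJ are PROVED THEOREMS and may be used without hypotheses; look into
`Pool/Agent/Helper37_PFS/Main.lean` and `Pool/Agent/Helper82_PFJ/Main.lean` for their names: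
`Pool.Agent.PFS.H60.zom : ZomStmt`, `H60.elm : ElmStmt`, `H60.lin : LinStmt`, `H60.crt : CrtStmt`,
`H60.fun_ : FunStmt`, `H37.cloF : CloStmt`, `H37.flmF : FlmStmt`, `H37.limF : LimStmt`,
`H37.lpsF : LpsStmt`, `H55.nop : NopStmt`, `H32.ncl H60.lin : NclStmt`, `H82.nin : NinStmt`,
`H37.abeF : AbeStmt`, `H81.chi : ChiStmt`, `H32.frz : FrzStmt`, `Pool.Agent.PFJ.H83.mxe : MxeStmt`,
`Pool.Agent.PFJ.H10.fmx : FmxStmt`, `CC.hul : HulFacts C Γ`, `PCone.normal`, `PCone.absorb`,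
`PCone.squeeze`, `PES.cl`, `PES.sum_mem`, `PES.pt_mem`.
Hypotheses of the form `XStmt` in the column `uses` are rows of THIS file.
-/

set_option autoImplicit false

open Matrix Filter Topology

namespace Pool.Agent.NTS

open Pool.Agent.PFS Pool.Agent.PFJ

/-! ## Definitions -/

/-- closed families of properly embedded simplices with `K` vertices in the limit cone, invariant
under `Γ` and under positive rescaling of the vertices -/
structure FamE {n : ℕ} (C : Set (V n)) (Γ : Subgroup (GL (Fin n) ℝ)) (K : ℕ)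
    (T : (Fin K → V n) → Prop) : Prop where
  pes : ∀ w, T w → IsPES C Γ w
  scale : ∀ w, T w → ∀ c : Fin K → ℝ, (∀ i, 0 < c i) → T (fun i => c i • w i)
  act : ∀ w, T w → ∀ g ∈ Γ, ∀ s : ℝ, 0 < s → T (fun i => s • act g (w i))
  closed : ∀ (x : ℕ → Fin K → V n) (w : Fin K → V n), (∀ m, T (x m)) →
    (∀ i, Tendsto (fun m => x m i) atTop (𝓝 (w i))) → IsPES C Γ w → T w

/-- all edges of the simplex `w` are trivial: the closed face of `w i + w j` is contained in the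
plane spanned by `w i` and `w j` -/
def TrivEdges {n K : ℕ} (C : Set (V n)) (w : Fin K → V n) : Prop :=
  ∀ i j, i ≠ j → ∀ y ∈ closure C, ∀ M : ℝ, M • (w i + w j) - y ∈ closure C →
    ∃ a b : ℝ, y = a • w i + b • w j

/-- labelled nearness: a positive combination of `w'`, whose coefficients are comparable with the
coefficients `2 ^ u i` (constant `L`), lies between `pt w u` and `M • pt w u` -/
def NearL {n K : ℕ} (C : Set (V n)) (M L : ℝ) (w w' : Fin K → V n) (u : Fin K → ℤ) : Prop :=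
  ∃ c : Fin K → ℝ, (∀ i, 0 < c i) ∧ (∀ i, (2 : ℝ) ^ (u i) ≤ L * c i) ∧
    (∀ i, c i ≤ L * (2 : ℝ) ^ (u i)) ∧
    (∑ i, c i • w' i) - pt w u ∈ closure C ∧ M • pt w u - (∑ i, c i • w' i) ∈ closure C

/-- the vector `y`, with the label `k`, is below the simplex `w` in the half space `ν > 0` -/
def BelowH {n K : ℕ} (C : Set (V n)) (w : Fin K → V n) (y : V n) (k : Fin K) (ν : Fin K → ℝ) :
    Prop :=
  ∃ M : ℝ, 0 < M ∧ ∀ u : Fin K → ℤ, 0 < ∑ i, ν i * (u i : ℝ) →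
    M • pt w u - (2 : ℝ) ^ (u k) • y ∈ closure C

/-! ## A. Elementary rows -/

/-- **Row NNG** (nonnegative coefficients).

Proof.  Suppose `c_i < 0`.  Let `A ≥ |c_j|` for all `j`.  With `x = ∑ c_j w_j ∈ closure C` and
`w_j ∈ closure C` (`PES.cl`):
`(A + (-c_i)) ∑_{j≠i} w_j = ∑_{j≠i} (A - c_j) w_j + (x + (-c_i) w_i) + (-c_i) ∑_{j≠i} w_j`
`= ∑_{j≠i} (A - c_j) w_j + x + (-c_i) ∑_j w_j`, which is in `C`, since `∑_j w_j ∈ C` and the other
terms are in `closure C`.  The left side is a combination with coefficient `0` at `i`, so it is not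
in `C` (`PES.bd`); contradiction. -/
def NngStmt : Prop :=
  ∀ (n : ℕ) (C : Set (V n)), PCone C → ∀ (ι : Type) [Fintype ι] [DecidableEq ι] (w : ι → V n),
    PES C w → ∀ c : ι → ℝ, ∑ i, c i • w i ∈ closure C → ∀ i, 0 ≤ c i

/-- **Row EXV** (the vertices of a top simplex are extreme).

Proof.  Suppose `y ∈ closure C`, `M w_i - y ∈ closure C`, and `y` is not a multiple of `w_i`; put
`x = w_i`.  `M > 0` (otherwise `-y ∈ closure C`, so `y = 0`, a multiple), and `x, y` are independent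
(`w_i ≠ 0`).  As in the landed row STC (see `Pool/Agent/Helper33_PFJ/Stc.lean`, first lemmas): let
`ε₀ = max {ε ≥ 0 : x - ε y ∈ closure C}` and `ε₁ = max {ε ≥ 0 : y - ε x ∈ closure C}` (closed
bounded sets, `PCone.normal`).  `ε₀ ≥ 1/M > 0`; `ε₀ ε₁ < 1` (`≤ 1` because `x ≥ ε₀ y ≥ ε₀ ε₁ x`; if
`= 1` then `x - ε₀ y` and its negative `ε₀ (y - ε₁ x)` are in `closure C`, so `x = ε₀ y`).
`e₁ = x - ε₀ y`, `e₂ = y - ε₁ x` are in `closure C`, and for no `N > 0` `N e₂ - e₁ ∈ closure C`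
(else `e₂ - η e₁ = (1 + η ε₀) y - (ε₁ + η) x ∈ closure C`, `η = 1/N`, so
`(ε₁ + η)/(1 + η ε₀) ≤ ε₁`, so `1 ≤ ε₀ ε₁`), and the same with `1`, `2` exchanged.
`x = a + b` with `a = α e₁`, `b = α ε₀ e₂`, `α = 1/(1 - ε₀ ε₁) > 0`.  `a, b ≠ 0`, `a, b ≤ x`, so
`a, b ∈ LamC` (FLM), and for no `N > 0` `N a - b ∈ closure C` or `N b - a ∈ closure C`.
Index type `ι = Option (Option {j // j ≠ i})`, `card ι = K + 1`; family `f_m = (a, b, (t_m w_j)_{j≠i})`,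
`t_m = 1/(m+1)`, sum `p_m = w_i + t_m ∑_{j≠i} w_j ∈ C ∩ Hull` (ELM).  Zoom (ZOM): `G_m p_{φ m} → p ∈ C`.
LIM for `X_m = G_m f_{φ m}` (entries in `Hull`: `LamC ⊆ Hull`, `HulFacts`).  Omit condition: if the
sum of the limits `X_j`, `j ≠ o`, is in `C`, then (absorb, `C` open) there is `N > 0` such that for all large
`m`: `N (p_m - f_m(o)) - f_m(o) ∈ C` (as in the file `Helper37_PFS/C22.lean`, `hgen`).
`o = a`: `N (b + t_m ∑_{j≠i} w_j) - a ∈ closure C`, `t_m → 0`: `N b - a ∈ closure C`, excluded.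
`o = b`: the same.  `o = w_l`, `l ≠ i`: `N (w_i + t_m ∑_{j≠i,l} w_j) - t_m w_l ∈ closure C`, a
combination of the `w_j` with a negative coefficient at `l`: contradicts NNG.
So there is an `IsPES` with `K + 1` vertices (reindex, ELM 3), contradicting `MaxCard`. -/
def ExvStmt : Prop :=
  ∀ (n : ℕ) (C : Set (V n)) (Γ : Subgroup (GL (Fin n) ℝ)), CC C Γ → ∀ K : ℕ, 2 ≤ K →
    MaxCard C Γ K → ∀ w : Fin K → V n, IsPES C Γ w → ∀ i, Ext C (w i)

/-- **Row VTX** (a vertex which dominates along a sequence is shared).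

Proof.  Let `c^N` be the coefficients of `NearL` at `u_N`, `s_N = 2 ^ (-u_N i) > 0`.
`s_N pt w u_N = w_i + ∑_{j≠i} 2 ^ (u_N j - u_N i) w_j → w_i`.  `s_N c^N_j ≤ L 2 ^ (u_N j - u_N i) → 0`
for `j ≠ i`, and `s_N c^N_i ∈ [1/L, L]` (`L > 0` because `2 ^ .. ≤ L c`, `c > 0`).  On a subsequence
`s_N c^N_i → c ∈ [1/L, L]`, `c > 0`.  In the limit `c w'_i - w_i ∈ closure C` and
`M w_i - c w'_i ∈ closure C`.  `Ext`: `c w'_i = e w_i`.  `e ≠ 0`, otherwise `-w_i ∈ closure C` and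
`w_i = 0`.  `e > 0`, otherwise `c w'_i` and `-(c w'_i) = (-e) w_i` are in `closure C`, so
`w'_i = 0`, `e w_i = 0`.  So `w'_i = (e/c) w_i`. -/
def VtxStmt : Prop :=
  ∀ (n : ℕ) (C : Set (V n)), PCone C → ∀ (K : ℕ) (w w' : Fin K → V n) (i : Fin K) (M L : ℝ)
    (u : ℕ → Fin K → ℤ), w i ∈ closure C → w i ≠ 0 → w' i ∈ closure C → Ext C (w i) →
    (∀ N, NearL C M L w w' (u N)) →
    (∀ j, j ≠ i → ∀ A : ℤ, ∀ᶠ N in atTop, A ≤ u N i - u N j) →
    ∃ c : ℝ, 0 < c ∧ w' i = c • w i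

/-- **Row NBD.**  In the situation `BelowH`, if `ν_i ≥ 0` for `i ≠ k` and `ν_{i1} > 0` for some
`i1 ≠ i0, k`, then the sum of `y` and of the vertices of the facet opposite to `i0 ≠ k` is not in `C`.

Proof.  `B ∈ ℕ`, `B ≥ 1`, with `B ν_{i1} > ν_{i0}`.  For `s ∈ ℕ`, `s ≥ 1`, let `u = u^s`:
`u_k = 0`, `u_{i0} = -s`, `u_i = B s` for the other `i`.
`∑ ν_i u_i = s (-ν_{i0} + B ∑_{i≠i0,k} ν_i) ≥ s (B ν_{i1} - ν_{i0}) > 0`.
So `y = 2^0 y ≤ M pt w u = M (2^{-s} w_{i0} + w_k + 2^{Bs} ∑_{i≠i0,k} w_i)`.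
Suppose `z = ∑_{i≠i0} w_i + y ∈ C`.  Absorb: `N > 0`, `N z - w_{i0} ∈ C`.  So
`N ∑_{i≠i0} w_i + N M pt w u - w_{i0} ∈ closure C`.  The coefficient of `w_{i0}` is
`N M 2^{-s} - 1`, so NNG gives `N M 2^{-s} ≥ 1` for all `s ≥ 1`, false for large `s`. -/
def NbdStmt : Prop :=
  ∀ (n : ℕ) (C : Set (V n)), PCone C → ∀ (K : ℕ) (w : Fin K → V n) (y : V n) (k : Fin K)
    (ν : Fin K → ℝ), PES C w → y ∈ closure C → BelowH C w y k ν → (∀ i, i ≠ k → 0 ≤ ν i) →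
    ∀ i0 i1 : Fin K, i0 ≠ k → i1 ≠ k → i1 ≠ i0 → 0 < ν i1 →
      (∑ i ∈ Finset.univ.erase i0, w i) + y ∉ C

/-- **Row TWO** (zoom at a vertex with an additional direction).  If `y ∈ LamC` is not a multiple
of the vertex `w_k` of the top simplex `w`, then for some `i0 ≠ k` the sum of `y` and of the vertices of
the facet opposite to `i0` is in `C`.

Proof.  Suppose not: `∑_{i≠i0} w_i + y ∉ C` for all `i0 ≠ k`.  For `m ≥ 1` there is `s_m ≥ m` such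
that `m x_m - (2^{s_m}/m) y ∉ closure C`, where `x_m = ∑_{i≠k} w_i + 2^{s_m} w_k`: otherwise, for a
fixed `m`, multiply by `2^{-s}` and let `s → ∞`: `m w_k - (1/m) y ∈ closure C`, so `y` is a multiple of
`w_k` (EXV), excluded.  Family (index `Option (Fin K)`, `card = K + 1`): `f_m(none) = (2^{s_m}/m) y`,
`f_m(some k) = 2^{s_m} w_k`, `f_m(some i) = w_i` for `i ≠ k`; all in `Hull`; sum
`p_m = x_m + (2^{s_m}/m) y ∈ C ∩ Hull` (`HulFacts`).  Zoom (ZOM), LIM.  Omit condition (`hgen` as in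
row EXV: `N > 0` with `N (p_m - f_m(o)) - f_m(o) ∈ C` for all large `m`; here `m` runs through the
subsequence):
`o = none`: `N x_m - (2^{s_m}/m) y ∈ C` for large `m ≥ N`, so `m x_m - (2^{s_m}/m) y ∈ closure C`,
contradiction.
`o = some k`: `N (∑_{i≠k} w_i + (2^{s_m}/m) y) - 2^{s_m} w_k ∈ closure C`; multiply by `2^{-s_m}`,
`m → ∞`: `-w_k ∈ closure C`, so `w_k = 0`, contradiction.
`o = some i0`, `i0 ≠ k`: the limit of `G_m (p_m - f_m(o))` is in `C`, so for large `m`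
`p_m - f_m(o) ∈ C`; this is a nonnegative combination of the `w_i`, `i ≠ i0`, and `y`; with `A ≥` all
coefficients `A (∑_{i≠i0} w_i + y) ∈ C`, contradiction.
So there is an `IsPES` with `K + 1` vertices, contradicting `MaxCard`. -/
def TwoStmt : Prop :=
  ∀ (n : ℕ) (C : Set (V n)) (Γ : Subgroup (GL (Fin n) ℝ)), CC C Γ → ∀ K : ℕ, 2 ≤ K →
    MaxCard C Γ K → ∀ (w : Fin K → V n) (y : V n) (k : Fin K), IsPES C Γ w → y ∈ LamC C Γ →
      (¬ ∃ c : ℝ, y = c • w k) →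
      ∃ i0, i0 ≠ k ∧ (∑ i ∈ Finset.univ.erase i0, w i) + y ∈ C

/-- **Row EDC.**  In the situation `BelowH`, if only `ν_j > 0` and `ν_k` are not zero (`j ≠ k`),
then `y ≤ M' (w_j + w_k)`.

Proof.  For `N ∈ ℕ` let `u_j = 1`, `u_k = 0`, `u_i = -N` for the other `i`: `∑ ν u = ν_j > 0`.
`M (2 w_j + w_k + 2^{-N} ∑_{i≠j,k} w_i) - y ∈ closure C`; `N → ∞`: `M (2 w_j + w_k) - y ∈ closure C`;
add `M w_k`. -/
def EdcStmt : Prop :=
  ∀ (n : ℕ) (C : Set (V n)), PCone C → ∀ (K : ℕ) (w : Fin K → V n) (y : V n) (k j : Fin K)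
    (ν : Fin K → ℝ), (∀ i, w i ∈ closure C) → BelowH C w y k ν → j ≠ k → 0 < ν j →
    (∀ i, i ≠ j → i ≠ k → ν i = 0) → ∃ M : ℝ, 0 < M ∧ M • (w j + w k) - y ∈ closure C

/-! ## B. The half space lemma -/

/-- **Row HSL** (half space lemma, without any hypothesis on faces).  Two different top simplices
which are labelled near in a half space: they share all vertices but one, `w'_i ∥ w_i` for `i ≠ k`,
`ν` has exactly two nonzero coordinates `ν_j > 0 > ν_k`, and `w'_k ≤ M (w_j + w_k)`.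

Proof.  By EXV all `w_i`, `w'_i` are extreme (`Ext`), they are nonzero (LIN) and in `closure C`.
(1) Let `i` be such that `ν_m < 0` for some `m ≠ i`.  `B ∈ ℕ` with `ν_i - B ν_m > 0`.
`u_N = (N+1) (1_i - B 1_m)`: `∑ ν u_N = (N+1)(ν_i - B ν_m) > 0`, `u_N i - u_N j ≥ N + 1` for `j ≠ i`.
VTX: `w'_i = c_i w_i`, `c_i > 0`.
(2) `ν ≠ 0`, `∑ ν = 0`: there is `k` with `ν_k < 0`.  If there were `k' ≠ k` with `ν_{k'} < 0`, then (1)
holds for all `i` and `Same w w'` (with the identity permutation), contradiction.  So `ν_i ≥ 0` for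
`i ≠ k` and `w'_i = c_i w_i` for `i ≠ k`.  Let `y = w'_k`.  `y` is not a multiple of `w_k`: if
`y = c w_k` then `c > 0` (`y ∈ closure C`, `y ≠ 0`) and `Same w w'`.
(3) `BelowH C w y k ν` with the constant `M L` (`M`, `L` may be assumed positive: `L > 0` as in VTX if
some `u` with `∑ ν u > 0` exists, it does; if `M ≤ 0` then `-∑ c w'_i ≥ 0`, impossible because
`∑ c w'_i ∈ C`): `2^{u_k} y ≤ L c_k y ≤ L ∑ c_i w'_i ≤ L M pt w u`.
(4) There is `j ≠ k` with `ν_j > 0` (`∑ ν = 0`).  If there is another `j' ≠ j, k` with `ν_{j'} > 0`: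
for `i0 ≠ k` one of `j`, `j'` is `≠ i0`, so NBD says that `∑_{i≠i0} w_i + y ∉ C` for all `i0 ≠ k`;
`y ∈ LamC`; this contradicts TWO.  So `ν_i = 0` for `i ≠ j, k`.
(5) EDC. -/
def HslStmt : Prop :=
  ∀ (n : ℕ) (C : Set (V n)) (Γ : Subgroup (GL (Fin n) ℝ)), CC C Γ → ∀ K : ℕ, 3 ≤ K →
    MaxCard C Γ K → ∀ (w w' : Fin K → V n) (ν : Fin K → ℝ) (M L : ℝ), IsPES C Γ w →
      IsPES C Γ w' → ν ≠ 0 → ∑ i, ν i = 0 → ¬ Same w w' →
      (∀ u : Fin K → ℤ, 0 < ∑ i, ν i * (u i : ℝ) → NearL C M L w w' u) →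
      ∃ j k : Fin K, j ≠ k ∧ 0 < ν j ∧ ν k = -ν j ∧ (∀ i, i ≠ j → i ≠ k → ν i = 0) ∧
        (∀ i, i ≠ k → ∃ c : ℝ, 0 < c ∧ w' i = c • w i) ∧ (¬ ∃ c : ℝ, w' k = c • w k) ∧
        ∃ M' : ℝ, 0 < M' ∧ M' • (w j + w k) - w' k ∈ closure C

/-- **Row HTE** (no half space pair if the edges are trivial).

Proof.  HSL: `j, k`.  `y = w'_k ≤ M' (w_j + w_k)`, so `y = a w_j + b w_k` (`TrivEdges`); NNG (the family
`w`, coefficients `a` at `j`, `b` at `k`, `0` else): `a, b ≥ 0`.  `a ≠ 0` since `y` is not a multiple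
of `w_k`; so `a > 0`.  `w'_j = c w_j`, `c > 0`, so `y - (a/c) w'_j = b w_k ∈ closure C`, that is
`(c/a) w'_k - w'_j ∈ closure C`: a combination of `w'` with coefficient `-1` at `j`, contradicting NNG
for `w'`. -/
def HteStmt : Prop :=
  ∀ (n : ℕ) (C : Set (V n)) (Γ : Subgroup (GL (Fin n) ℝ)), CC C Γ → ∀ K : ℕ, 3 ≤ K →
    MaxCard C Γ K → ∀ (w w' : Fin K → V n) (ν : Fin K → ℝ) (M L : ℝ), IsPES C Γ w →
      IsPES C Γ w' → TrivEdges C w → ν ≠ 0 → ∑ i, ν i = 0 →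
      (∀ u : Fin K → ℤ, 0 < ∑ i, ν i * (u i : ℝ) → NearL C M L w w' u) → Same w w'

/-! ## C. Discreteness -/

/-- **Row LAB** (labels, no drift).  If `x_m` and `x'_m` converge to the same simplex, then for
large `m` nearness at ANY point implies labelled nearness at this point.

Proof.  `p = ∑ w ∈ C`, `∑ x_m → p`, `∑ x'_m → p`, `x'_{m,j} - x_{m,j} → 0`.  So for large `m`, for all `j`:
`(1/2) ∑ x_m ± (x'_{m,j} - x_{m,j}) ∈ C` and `(1/2) ∑ x'_m ± (x'_{m,j} - x_{m,j}) ∈ C` (`C` open, the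
limits are `(1/2) p ∈ C`).  Fix such an `m` and write `x, x'`.  Let `u` be arbitrary,
`pt x u ≤ q ≤ 2 pt x u`, `q = ∑ c_j x'_j`, `c > 0`.
FUN for `(x, i)`: `φ ≥ 0` on `closure C`, `φ(x_j) = 0` for `j ≠ i`, `φ(x_i) > 0`; normalise
`φ(x_i) = 1`, so `φ(∑ x) = 1` and `φ(x'_i) ≥ φ(x_i) - 1/2 = 1/2`.
`c_i / 2 ≤ c_i φ(x'_i) ≤ φ(q) ≤ 2 φ(pt x u) = 2 · 2^{u_i}`, so `c_i ≤ 4 · 2^{u_i}`.
FUN for `(x', i)`: `φ'(x'_j) = 0` for `j ≠ i`, `φ'(x'_i) = 1`, `φ'(x_i) ≥ 1/2`: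
`2^{u_i} / 2 ≤ φ'(pt x u) ≤ φ'(q) = c_i`, so `2^{u_i} ≤ 4 c_i`. -/
def LabStmt : Prop :=
  ∀ (n : ℕ) (C : Set (V n)), PCone C → ∀ (K : ℕ) (x x' : ℕ → Fin K → V n) (w : Fin K → V n),
    (∀ m, PES C (x m)) → (∀ m, PES C (x' m)) → PES C w →
    (∀ i, Tendsto (fun m => x m i) atTop (𝓝 (w i))) →
    (∀ i, Tendsto (fun m => x' m i) atTop (𝓝 (w i))) →
    ∀ᶠ m in atTop, ∀ u : Fin K → ℤ, Near C 2 (x' m) (pt (x m) u) → NearL C 2 4 (x m) (x' m) u

/-- **Row ZSL** (the zoom step for pairs of sequences, with labels).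

Proof.  `X_m = (2^{u_m i} x_{m,i})_i`, `X'_m = (2^{u_m i} x'_{m,i})_i` are in `T`;
`∑ X_m = pt (x_m) (u_m) ∈ C ∩ Hull` (ELM).  Zoom (ZOM): `G_m ∑ X_{φ m} → p ∈ C`, `G_m = s_m g_m`.
LPS: on a subsequence `G_m X_m → W`, `IsPES`, `∑ W = p`; `T W` (`act`, `scale`, `closed`).
Let `c^m` be the coefficients of `NearL M₁ L₁` at `u_m`, `d^m_i = c^m_i / 2^{u_m i} ∈ [1/L₁, L₁]`
(`L₁ > 0`).  On a subsequence `d^m → d`, `d_i ∈ [1/L₁, L₁]`.  `∑ d^m_i X'_{m,i}` lies between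
`∑ X_m` and `M₁ ∑ X_m`; so `G_m ∑ d^m X'_m` lies between `G_m ∑ X_m` and `M₁ G_m ∑ X_m`, bounded
(`PCone.normal`), on a subsequence it converges to `Q ≥ p`, `Q ∈ C`.  LPS for the family
`G_m (d^m_i X'_{m,i})` (`IsPES`, ELM): on a subsequence it converges to an `IsPES` `U`, and
`G_m X'_{m,i} → d_i⁻¹ U_i =: W'_i`, `IsPES` (ELM), `T W'`.
If `Same W W'`: `p = ∑ W ∈ PosCone W'`, NOP gives `Near 2 (G_m X'_m) (G_m ∑ X_m)` for large `m`, hence
`Near 2 (x'_m) (pt (x_m) (u_m))` (NIN (1), (4); scaling of the vertices changes only coefficients),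
contradiction.
Labels: let `v` be such that `NearL 2 4 (x_m) (x'_m) (u_m + v)` for infinitely many `m` of the
subsequence, coefficients `c^m`, `e^m_i = c^m_i / 2^{u_m i} ∈ [2^{v_i}/4, 4 · 2^{v_i}]`, on a
subsequence `e^m → e` in the same interval.
`G_m pt (x_m) (u_m + v) = ∑ 2^{v_i} G_m X_{m,i} → pt W v`, `G_m ∑ c^m_i x'_{m,i} = ∑ e^m_i G_m X'_{m,i} →
∑ e_i W'_i`.  The two inequalities pass to the limit. -/
def ZslStmt : Prop :=
  ∀ (n : ℕ) (C : Set (V n)) (Γ : Subgroup (GL (Fin n) ℝ)), CC C Γ → ∀ K : ℕ, 2 ≤ K →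
    ∀ T : (Fin K → V n) → Prop, FamE C Γ K T →
    ∀ (x x' : ℕ → Fin K → V n) (u : ℕ → Fin K → ℤ) (M₁ L₁ : ℝ), (∀ m, T (x m)) →
      (∀ m, T (x' m)) → (∀ m, NearL C M₁ L₁ (x m) (x' m) (u m)) →
      (∀ m, ¬ Near C 2 (x' m) (pt (x m) (u m))) →
      ∃ (φ : ℕ → ℕ) (W W' : Fin K → V n), StrictMono φ ∧ T W ∧ T W' ∧ ¬ Same W W' ∧
        ∀ v : Fin K → ℤ,
          (∃ᶠ m in atTop, NearL C 2 4 (x (φ m)) (x' (φ m)) (fun i => u (φ m) i + v i)) →
          NearL C 2 4 W W' v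

/-- **Row BAL** (large balls become half spaces).

Proof.  `R_m = sqrt (∑ u_{m,i}²) → ∞`.  `ν^m_i = -u_{m,i}/R_m` lies in the unit sphere of `ℝ^K` (for
large `m`; `EuclideanSpace` or coordinatewise bounded by `1` with `∑ (ν^m_i)² = 1`), so a
subsequence converges coordinatewise to `ν` with `∑ ν_i² = 1`, `ν ≠ 0`.
`t = 1` and `t = -1` in the hypothesis: `0 ≤ 2 t ∑ u_{m,i} + K`, so `|∑ u_{m,i}| ≤ K/2` and
`∑ ν^m_i → 0`.
Let `∑ ν_i v_i > 0`.  `∑ (u_{m,i} + v_i)² - ∑ u_{m,i}² = 2 ∑ u_{m,i} v_i + ∑ v_i² =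
-2 R_m ∑ ν^m_i v_i + ∑ v_i² → -∞`. -/
def BalStmt : Prop :=
  ∀ (K : ℕ) (u : ℕ → Fin K → ℤ),
    (∀ (m : ℕ) (t : ℤ), ∑ i, (u m i) ^ 2 ≤ ∑ i, (u m i + t) ^ 2) →
    (∀ B : ℤ, ∀ᶠ m in atTop, B ≤ ∑ i, (u m i) ^ 2) →
    ∃ (φ : ℕ → ℕ) (ν : Fin K → ℝ), StrictMono φ ∧ ν ≠ 0 ∧ ∑ i, ν i = 0 ∧
      ∀ v : Fin K → ℤ, 0 < ∑ i, ν i * (v i : ℝ) →
        ∀ᶠ m in atTop, ∑ i, (u (φ m) i + v i) ^ 2 < ∑ i, (u (φ m) i) ^ 2

/-- **Row NLN** (labelled nearness at a neighbouring point; the point `u` differs from `u'` by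
`1` in one coordinate).

Proof.  `c` the coefficients at `u'`.  Case `u = u' + 1_i`: `pt w u' ≤ pt w u ≤ 2 pt w u'` (the
difference is `2^{u'_i} w_i`, resp. `2 pt w u' - pt w u = ∑_{j≠i} 2^{u'_j} w_j`); coefficients `2 c`:
`pt w u ≤ 2 pt w u' ≤ 2 q ≤ 4 pt w u' ≤ 4 pt w u`, and `2^{u_j} ≤ 2 · 2^{u'_j} ≤ 8 c_j = 4 (2 c_j)`,
`2 c_j ≤ 8 · 2^{u'_j} ≤ 8 · 2^{u_j}`.  Case `u = u' - 1_i`: `pt w u ≤ pt w u' ≤ 2 pt w u`;
coefficients `c`: `pt w u ≤ pt w u' ≤ q ≤ 2 pt w u' ≤ 4 pt w u`, `2^{u_j} ≤ 2^{u'_j} ≤ 4 c_j`,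
`c_j ≤ 4 · 2^{u'_j} ≤ 8 · 2^{u_j}`. -/
def NlnStmt : Prop :=
  ∀ (n : ℕ) (C : Set (V n)), PCone C → ∀ (K : ℕ) (w w' : Fin K → V n) (u : Fin K → ℤ)
    (i : Fin K) (e : ℤ), (∀ j, w j ∈ closure C) → (∀ j, w' j ∈ closure C) → (e = 1 ∨ e = -1) →
    NearL C 2 4 w w' (fun j => if j = i then u j + e else u j) → NearL C 4 8 w w' u

/-- **Row DSE** (discreteness).

Proof.  Suppose not.  On a subsequence (`Filter.extraction_of_frequently_atTop`) `¬ Same w (x_m)` for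
all `m`.  LAB with the constant sequence `w` and `x' = x`: on a further tail: for all `m`, all `u`,
`Near 2 (x_m) (pt w u) → NearL 2 4 w (x_m) u` (*).  Let `Bad_m = {u : ¬ Near C 2 (x_m) (pt w u)}`.
`Bad_m` is nonempty: otherwise `NearL 2 4 w (x_m) u` for all `u`; VTX with `u_N = N 1_i` (and EXV) for
every `i` gives `x_{m,i} = c_i w_i`, `Same w (x_m)`, contradiction.
Choose `u_m ∈ Bad_m` with minimal `∑ u_i²` (`Nat`-valued: `Int.toNat`, `Nat.find`, or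
`WellFounded.min`).  `Bad_m` is invariant under `u ↦ u + t` (`pt w (u + t) = 2^t pt w u`, scale the
coefficients), so the first hypothesis of BAL holds.  Second hypothesis: the set of `u` with
`∑ u_i² < B` is finite (`|u_i| ≤ B`), and each `u` is in `Bad_m` only for finitely many `m` (NOP with
the constant point `pt w u ∈ PosCone w`); so eventually none of them is in `Bad_m`.
BAL: `φ`, `ν`.  Pass to the subsequence; then for every `v` with `∑ ν v > 0`: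
`NearL 2 4 w (x_m) (u_m + v)` for all large `m` (minimality and (*)).
`NearL 4 8 w (x_m) (u_m)` for all large `m`: `∑ u_m² ≥ 1`, so some `u_m i ≠ 0`; let `e = -1` if
`u_m i > 0` and `e = 1` if `u_m i < 0`; `(u_m i + e)² < (u_m i)²`, so the neighbour is not bad; (*) and
NLN.  ZSL (on the tail, `x = ` the constant sequence `w`, `x' = x`, `M₁ = 4`, `L₁ = 8`): `W, W'` in
`T`, `¬ Same W W'`, and `NearL 2 4 W W' v` for all `v` with `∑ ν v > 0`.  HTE: `Same W W'`,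
contradiction. -/
def DseStmt : Prop :=
  ∀ (n : ℕ) (C : Set (V n)) (Γ : Subgroup (GL (Fin n) ℝ)), CC C Γ → ∀ K : ℕ, 3 ≤ K →
    MaxCard C Γ K → ∀ T : (Fin K → V n) → Prop, FamE C Γ K T → (∀ w, T w → TrivEdges C w) →
    ∀ (x : ℕ → Fin K → V n) (w : Fin K → V n), (∀ m, T (x m)) → T w →
      (∀ i, Tendsto (fun m => x m i) atTop (𝓝 (w i))) → ∀ᶠ m in atTop, Same w (x m)

/-! ## D. Assembly -/

/-- **Row PRE** (row PER for these families: copy `Pool/Agent/Helper37_PFS/PER2.lean`, which does not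
use `Fam.star` and `Fam.perm`). -/
def PreStmt : Prop :=
  ∀ (n : ℕ) (C : Set (V n)) (Γ : Subgroup (GL (Fin n) ℝ)), CC C Γ → ∀ K : ℕ, 2 ≤ K →
    ∀ T : (Fin K → V n) → Prop, FamE C Γ K T →
    (∀ (x : ℕ → Fin K → V n) (W : Fin K → V n), (∀ m, T (x m)) → T W →
      (∀ i, Tendsto (fun m => x m i) atTop (𝓝 (W i))) → ∀ᶠ m in atTop, Same W (x m)) →
    ∀ w : Fin K → V n, T w → ∀ ℓ : Fin K → ℝ, ℓ ≠ 0 → ∑ i, ℓ i = 0 →
      ∃ γ ∈ Γ, ∃ χ : Fin K → ℝ, (∀ i, act γ (w i) = Real.exp (χ i) • w i) ∧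
        ∑ i, ℓ i * χ i ≠ 0

/-- **Row FAE** (Theorem E).

Proof.  As `famfin` in `Pool/Agent/Helper37_PFS/FIN3.lean`: LIN, FRZ; maximality: EXV and
`Pool.Agent.PFJ.H83.mxe : MxeStmt`; PRE with DSE; CHI; ABE. -/
def FaeStmt : Prop :=
  ∀ (n : ℕ) (C : Set (V n)) (Γ : Subgroup (GL (Fin n) ℝ)), CC C Γ → ∀ k : ℕ, 2 ≤ k →
    MaxCard C Γ (k + 1) → ∀ T : (Fin (k + 1) → V n) → Prop, FamE C Γ (k + 1) T →
      (∀ w, T w → TrivEdges C w) → ∀ v, T v → Concl C Γ k v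

/-- **Row ORE** (the orbit closure of a simplex).

Proof.  `T w := IsPES C Γ w ∧ w ∈ closure (Orb Γ v)`; as `orbfam` in
`Pool/Agent/Helper37_PFS/FIN3.lean`, without permutations.  `TrivEdges` from the hypothesis on the open
faces: `i ≠ j`, `y ∈ closure C`, `y ≤ M x`, `x = w_i + w_j`: `M ≥ 0` may be assumed (`x ∈ closure C`);
`x + y ∈ Face C x` (`x ≤ x + y ≤ (1 + M) x`), so `x + y = a w_i + b w_j`. -/
def OreStmt : Prop :=
  ∀ (n : ℕ) (C : Set (V n)) (Γ : Subgroup (GL (Fin n) ℝ)), CC C Γ →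
    ∀ (K : ℕ) (v : Fin K → V n), IsPES C Γ v →
      (∀ w, IsPES C Γ w → w ∈ closure (Orb Γ v) → ∀ i j, i ≠ j → ∀ y ∈ Face C (w i + w j),
        ∃ a b : ℝ, y = a • w i + b • w j) →
      ∃ T : (Fin K → V n) → Prop, FamE C Γ K T ∧ (∀ w, T w → TrivEdges C w) ∧ T v

end Pool.Agent.NTS
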